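import Pool.Agent.Q14.NFMain

/-!
MP_0a7d83_co: the NF-number of the dumbbell graph `B_{n,m}` is `n + m + 2`.
-/

namespace Pool.Agent.Results.MP_0a7d83_co.DumbbellNF

open Pool.Agent.Q14.NF

/-- For all `n, m ≥ 2` with `(n, m) ≠ (2, 2)`, the NF-number of the dumbbell graph `B_{n,m}` is
`n + m + 2`: the least `q > 0` such that `q` applications of the NF operation give a complex
isomorphic to `B_{n,m}` exists and equals `n + m + 2`. -/
theorem result (n m : ℕ) (hn : 2 ≤ n) (hm : 2 ≤ m) (h : (n, m) ≠ (2, 2)) :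
    nfNumber (graphComplex (dumbbell n m)) = n + m + 2 :=
  nfNumber_dumbbell hn hm h

end Pool.Agent.Results.MP_0a7d83_co.DumbbellNF
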